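import Pool.Agent.Y687.K2.Desc2p

/-!
Finiteness of the set of rational points from the two isogeny descents, for twists by an integer.
-/

set_option autoImplicit false
set_option linter.style.haveILetI false

open WeierstrassCurve WeierstrassCurve.Affine

namespace Pool.Agent.Y687

open Pool.Agent.TH942 (sw SPt sw_eqn sw_nonsing sfg)

/-- the first descent has the classes `1, 2` only -/
def Cls1 (M : ℤ) : Prop := ∀ d w e N : ℤ, Squarefree d → 0 < e → IsCoprime (d * w) e →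
  d * N ^ 2 = d ^ 2 * w ^ 4 + (13 * M) * d * w ^ 2 * e ^ 2 + (128 * M ^ 2) * e ^ 4 →
  d = 1 ∨ d = 2

/-- the second descent has the classes `1, -7` only -/
def Cls2 (M : ℤ) : Prop := ∀ d w e N : ℤ, Squarefree d → IsCoprime (d * w) e →
  d * N ^ 2 = d ^ 2 * w ^ 4 + (-26 * M) * d * w ^ 2 * e ^ 2 + (-343 * M ^ 2) * e ^ 4 →
  d = 1 ∨ d = -7

theorem Cls1.x_class {M : ℤ} (H : Cls1 M) {x y : ℚ} (hx : x ≠ 0)
    (h : y ^ 2 = x * (x ^ 2 + 13 * (M : ℚ) * x + 128 * (M : ℚ) ^ 2)) :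
    IsSquare x ∨ IsSquare (2 * x) := by
  obtain ⟨d, w, e, N, h1, h2, h3, h4, h5, h6⟩ := hom_space (13 * M)
    (128 * M ^ 2) (X := x) (Y := y) hx (by rw [h]; push_cast; ring)
  have he : (e : ℚ) ≠ 0 := by exact_mod_cast h2.ne'
  rcases H d w e N h1 h2 h4 h6 with rfl | rfl
  · left
    refine ⟨w / e, ?_⟩
    rw [h5]
    push_cast
    field_simp
  · right
    refine ⟨2 * w / e, ?_⟩
    rw [h5]
    push_cast
    field_simp

theorem Cls2.X_class {M : ℤ} (hM : M ≠ 0) (H : Cls2 M) {u v : ℚ}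
    (h : v ^ 2 = u ^ 4 + 13 * (M : ℚ) * u ^ 2 + 128 * (M : ℚ) ^ 2) :
    IsSquare (13 * (M : ℚ) + 2 * u ^ 2 + 2 * v) ∨
      IsSquare (13 * (M : ℚ) + 2 * u ^ 2 - 2 * v) := by
  have hM0 : (M : ℚ) ≠ 0 := by exact_mod_cast hM
  have hprod : (13 * (M : ℚ) + 2 * u ^ 2 + 2 * v) *
      (13 * (M : ℚ) + 2 * u ^ 2 - 2 * v) = -343 * (M : ℚ) ^ 2 := by
    linear_combination (-4 : ℚ) * h
  obtain ⟨X, hX⟩ : ∃ X, X = 13 * (M : ℚ) + 2 * u ^ 2 + 2 * v := ⟨_, rfl⟩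
  have hX0 : X ≠ 0 := by
    rintro rfl
    rw [← hX, zero_mul] at hprod
    have : 343 * (M : ℚ) ^ 2 = 0 := by linear_combination hprod
    rcases mul_eq_zero.1 this with h1 | h1
    · norm_num at h1
    · exact pow_ne_zero 2 hM0 h1
  obtain ⟨d, w, e, N, h1, h2, h3, h4, h5, h6⟩ := hom_space (-26 * M)
    (-343 * M ^ 2) (X := X) (Y := 2 * u * X) hX0 (by
      rw [hX]
      push_cast at h ⊢
      linear_combination (-4 * (13 * (M : ℚ) + 2 * u ^ 2 + 2 * v)) * h)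
  have he : (e : ℚ) ≠ 0 := by exact_mod_cast h2.ne'
  have hw : (w : ℚ) ≠ 0 := by exact_mod_cast h3
  rcases H d w e N h1 h4 h6 with rfl | rfl
  · left
    refine ⟨w / e, ?_⟩
    rw [← hX, h5]
    push_cast
    field_simp
  · right
    refine ⟨7 * (M : ℚ) * e / w, ?_⟩
    rw [← hX, h5] at hprod
    push_cast at hprod ⊢
    field_simp at hprod ⊢
    linear_combination (-1 : ℚ) * hprod / 7

/-- finiteness of the set of rational points from the knowledge of the classes -/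
theorem finite_set_of_cls {M : ℤ} (hM : M ≠ 0) (H1 : Cls1 M) (H2 : Cls2 M) :
    {q : ℚ × ℚ | q.2 ^ 2 = q.1 ^ 3 + ((5805 * M ^ 2 : ℤ) : ℚ) * q.1 +
      ((-285714 * M ^ 3 : ℤ) : ℚ)}.Finite := by
  have hM0 : (M : ℚ) ≠ 0 := by exact_mod_cast hM
  haveI := finite_pt_of_class hM0 (fun hx h => H1.x_class hx h) (fun h => H2.X_class hM h)
  rw [← Set.finite_coe_iff]
  have key : ∀ q : {q : ℚ × ℚ | q.2 ^ 2 = q.1 ^ 3 + ((5805 * M ^ 2 : ℤ) : ℚ) * q.1 +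
      ((-285714 * M ^ 3 : ℤ) : ℚ)},
      (sw (5805 * (M : ℚ) ^ 2) (-285714 * (M : ℚ) ^ 3)).toAffine.Nonsingular q.1.1 q.1.2 := by
    rintro ⟨q, hq⟩
    refine sw_nonsing (disc_ne hM0) ?_
    have h1 : q.2 ^ 2 = q.1 ^ 3 + ((5805 * M ^ 2 : ℤ) : ℚ) * q.1 +
      ((-285714 * M ^ 3 : ℤ) : ℚ) := hq
    rw [h1]
    push_cast
    ring
  refine Finite.of_injective (fun q : {q : ℚ × ℚ | q.2 ^ 2 = q.1 ^ 3 +
      ((5805 * M ^ 2 : ℤ) : ℚ) * q.1 + ((-285714 * M ^ 3 : ℤ) : ℚ)} =>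
    (Point.some _ _ (key q) : SPt (5805 * (M : ℚ) ^ 2) (-285714 * (M : ℚ) ^ 3))) ?_
  intro q q' h
  have h1 := Point.some.inj h
  exact Subtype.ext (Prod.ext h1.1 h1.2)

/-- the class of the first descent is positive -/
theorem cls1_pos {M d w e N : ℤ} (hM : M ≠ 0) (hd : Squarefree d) (he : 0 < e)
    (h : d * N ^ 2 = d ^ 2 * w ^ 4 + (13 * M) * d * w ^ 2 * e ^ 2 + (128 * M ^ 2) * e ^ 4) :
    0 < d := by
  have hd0 := hd.ne_zero
  by_contra hneg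
  have h1 : d * N ^ 2 ≤ 0 := mul_nonpos_of_nonpos_of_nonneg (by linarith) (sq_nonneg _)
  have h2 : 0 < 343 * M ^ 2 * e ^ 4 := by positivity
  nlinarith [sq_nonneg (2 * d * w ^ 2 + 13 * M * e ^ 2)]

/-- first descent: `-7` is a square modulo a common prime of `d` and `M` -/
theorem cls1_prime {M d w e N : ℤ} (hM : Squarefree M) (hd : Squarefree d)
    (hc : IsCoprime (d * w) e)
    (h : d * N ^ 2 = d ^ 2 * w ^ 4 + (13 * M) * d * w ^ 2 * e ^ 2 + (128 * M ^ 2) * e ^ 4)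
    {q : ℕ} (hq : q.Prime) (hqd : (q : ℤ) ∣ d) (hqM : (q : ℤ) ∣ M) (n7 : q ≠ 7) :
    IsSquare (-7 : ZMod q) := by
  haveI : Fact q.Prime := ⟨hq⟩
  obtain ⟨d1, M1, -, -, k1, k2, k3⟩ := local_root hd hM hc h hq hqd hqM
  have n7' : (7 : ZMod q) ≠ 0 := by exact_mod_cast prime_cast_ne hq 7 (by norm_num) n7
  set z : ZMod q := (M1 : ZMod q) * (e : ZMod q) ^ 2 with hz
  have hz0 : z ≠ 0 := mul_ne_zero k1 (pow_ne_zero 2 k2)
  set u : ZMod q := ((d1 * w ^ 2 : ℤ) : ZMod q) with hu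
  refine ⟨(2 * u + 13 * z) / (7 * z), ?_⟩
  have h77 : (7 * z) * (7 * z) ≠ 0 := mul_ne_zero (mul_ne_zero n7' hz0) (mul_ne_zero n7' hz0)
  rw [div_mul_div_comm, eq_div_iff h77]
  push_cast at k3
  linear_combination -4 * k3

/-- second descent: `2` is a square modulo a common prime of `d` and `M` -/
theorem cls2_prime {M d w e N : ℤ} (hM : Squarefree M) (hd : Squarefree d)
    (hc : IsCoprime (d * w) e)
    (h : d * N ^ 2 = d ^ 2 * w ^ 4 + (-26 * M) * d * w ^ 2 * e ^ 2 + (-343 * M ^ 2) * e ^ 4)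
    {q : ℕ} (hq : q.Prime) (hqd : (q : ℤ) ∣ d) (hqM : (q : ℤ) ∣ M) (n2 : q ≠ 2) :
    IsSquare (2 : ZMod q) := by
  haveI : Fact q.Prime := ⟨hq⟩
  obtain ⟨d1, M1, -, -, k1, k2, k3⟩ := local_root hd hM hc h hq hqd hqM
  have n2' : (2 : ZMod q) ≠ 0 := by exact_mod_cast prime_cast_ne hq 2 Nat.prime_two n2
  have n16 : (16 : ZMod q) ≠ 0 := by
    rw [show (16 : ZMod q) = 2 ^ 4 by norm_num]; exact pow_ne_zero _ n2'
  set z : ZMod q := (M1 : ZMod q) * (e : ZMod q) ^ 2 with hz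
  have hz0 : z ≠ 0 := mul_ne_zero k1 (pow_ne_zero 2 k2)
  set u : ZMod q := ((d1 * w ^ 2 : ℤ) : ZMod q) with hu
  refine ⟨(u - 13 * z) / (16 * z), ?_⟩
  have h77 : (16 * z) * (16 * z) ≠ 0 := mul_ne_zero (mul_ne_zero n16 hz0) (mul_ne_zero n16 hz0)
  rw [div_mul_div_comm, eq_div_iff h77]
  push_cast at k3
  linear_combination -k3

theorem unit1 {u : ℤ} (hu : 0 < u) (hsf : Squarefree u) (hdv : u ∣ 128) : u = 1 ∨ u = 2 := by
  have h4 := sf_pow 2 7 Nat.prime_two hsf (by norm_num; exact hdv)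
  omega

theorem unit2 {u : ℤ} (hsf : Squarefree u) (hdv : u ∣ -343) :
    u = 1 ∨ u = -1 ∨ u = 7 ∨ u = -7 := by
  have h4 := sf_pow 7 3 (by norm_num) hsf (by norm_num; exact (dvd_neg.1 hdv))
  omega

end Pool.Agent.Y687
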